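import Mathlib
import Pool.Agent.N328.PH.Main2

/-!
# Hadamard matrices with all but `n ^ (4 / 5) * (log n) ^ 2` of their rows

For every sufficiently large `n` divisible by four there are `n - n ^ (4 / 5) * (log n) ^ 2` pairwise
orthogonal rows of length `n` with entries `1` and `-1`.
-/

namespace Pool.Agent.Results.MP_d8b1b3_co.AlmostAllRows

/-- There is `N` such that for all `n ≥ N` divisible by four and all
`k ≤ n - n ^ (4 / 5) * (log n) ^ 2` there is a `k × n` matrix `M` with entries `1` and `-1` and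
`M Mᵀ = n I`. -/
theorem result : ∃ N : ℕ, ∀ n : ℕ, N ≤ n → 4 ∣ n → ∀ k : ℕ,
    (k : ℝ) ≤ (n : ℝ) - (n : ℝ) ^ (4 / 5 : ℝ) * (Real.log n) ^ 2 →
    ∃ M : Matrix (Fin k) (Fin n) ℤ, (∀ i j, M i j = 1 ∨ M i j = -1) ∧
      M * M.transpose = (n : ℤ) • (1 : Matrix (Fin k) (Fin k) ℤ) := by
  obtain ⟨N, hN⟩ := Pool.Agent.N328.PH.main2
  refine ⟨N, fun n hn h4 k hk => ?_⟩
  obtain ⟨k', hk', hM⟩ := hN n hn h4
  have hle : k ≤ k' := by exact_mod_cast hk.trans hk'
  exact hM.mono hle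

end Pool.Agent.Results.MP_d8b1b3_co.AlmostAllRows
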