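import Pool.Agent.N908.FO.Main

/-!
# Flat orthogonal matrices of every order

A Hadamard matrix of order `n` is the same as a real orthogonal matrix of order `n` all of whose
entries have absolute value `1 / √n`. In every order `n` there is a real orthogonal matrix whose
entries have absolute value `1 / √n` up to an error `2 ^ (C ^ (1 + log* n)) / n`. The numerator is
smaller than every fixed iterated logarithm of `n`. The error is best possible up to that numerator:
for every `n ≥ 3` that is not divisible by four, every orthogonal matrix of order `n` has squared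
Euclidean distance at least `1 / 9` from the matrices with entries `± 1 / √n`, and so an
entry with error at least `1 / (3 n)`.

The matrix is made from a Hadamard matrix `H` of an order `m ≥ n` close to `n`
(`MP_d8b1b3_co/LogStarExistence`): if `H / √m` has the blocks `a`, `r`, `s`, `t`, with `a` of order
`n`, then `a + r (1 - t)⁻¹ s` is orthogonal.
-/

namespace Pool.Agent.Results.MP_d8b1b3_co.FlatOrthogonal

open Matrix

theorem result : ∃ C : ℕ, ∀ k n : ℕ, 0 < n → n ≤ (fun x : ℕ => 2 ^ x)^[k] 1 →
    (∃ U : Matrix (Fin n) (Fin n) ℝ, U * Uᵀ = 1 ∧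
      ∀ i j, abs (abs (U i j) - 1 / √(n : ℝ)) ≤ 2 ^ (C ^ (k + 1)) / n) ∧
    (3 ≤ n → ¬ 4 ∣ n → ∀ U : Matrix (Fin n) (Fin n) ℝ, U * Uᵀ = 1 →
      1 / 9 ≤ ∑ i, ∑ j, (abs (U i j) - 1 / √(n : ℝ)) ^ 2) := by
  obtain ⟨C, h⟩ := Pool.Agent.N908.FO.flat_exists
  exact ⟨C, fun k n hn hk =>
    ⟨h k n hn hk, fun h3 h4 U hU => Pool.Agent.N908.FO.dist_low h3 h4 U hU⟩⟩

end Pool.Agent.Results.MP_d8b1b3_co.FlatOrthogonal
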