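import Mathlib
import Pool.Agent.N458.AH.Main

/-!
# Nearly orthogonal sign matrices of every order

For every `r` and every large `n` there is an `n × n` matrix with entries `1` and `-1` all of whose
singular values lie within `n ^ (1 / 4) * log n * log^[r] n` of `√n` (a Hadamard matrix is a sign matrix
all of whose singular values are equal to `√n`; here `log^[r]` is the `r` times iterated logarithm).
In particular the condition numbers tend to `1`.

Proof.  By the `log*` existence theorem of the starting files there is a Hadamard matrix
`[A B; D C]` of order `N = n + k` with `A` of order `n` and a very small `k`. The matrix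
`F = (1 - k θ) A + θ B D`, `θ = 1 / √N`, satisfies `F Fᵀ = N I + O(k √N)`, and it is the mean of a random
sign matrix: the cyclic diagonals `j - i = g` are left alone with probability `1 - k θ` and replaced by
the same diagonal of `b_l d_l` (the `l`-th column of `B` times the `l`-th row of `D`) with probability
`θ` for each `l`. The difference is a sum of `n` independent centred matrices of norm at most four,
and its norm is bounded by a high moment.
-/

namespace Pool.Agent.Results.MP_d8b1b3_co.NearlyOrthogonalAllOrders

/-- For every `r` there is `n₀` such that for every `n ≥ n₀` there is an `n × n` real matrix `A` with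
entries `1` and `-1` and `| |A x| - √n |x| | ≤ n ^ (1 / 4) * log n * log^[r] n * |x|` (Euclidean norms) for
all real vectors `x`. -/
theorem result : ∀ r : ℕ, ∃ n₀ : ℕ, ∀ n : ℕ, n₀ ≤ n →
    ∃ A : Matrix (Fin n) (Fin n) ℝ, (∀ i j, A i j = 1 ∨ A i j = -1) ∧
      ∀ x : EuclideanSpace ℝ (Fin n),
        |‖Matrix.toEuclideanLin A x‖ - Real.sqrt n * ‖x‖| ≤
          (n : ℝ) ^ (1 / 4 : ℝ) * Real.log n * Real.log^[r] (n : ℝ) * ‖x‖ := by
  intro r
  obtain ⟨n₀, h⟩ := Pool.Agent.N458.AH.approx_log r
  exact ⟨n₀, fun n hn => (h n hn).2⟩

end Pool.Agent.Results.MP_d8b1b3_co.NearlyOrthogonalAllOrders
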