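import Mathlib
import Pool.Agent.N447.Had.N523
import Pool.Agent.N447.Had.N571
import Pool.Agent.N447.Had.N573
import Pool.Agent.N447.Had.N659

/-!
# Hadamard matrices of orders 2092, 2284, 2292 and 2636

Order `2092 = 4 * 523` was the smallest multiple of four for which no Hadamard matrix was known.
The first two matrices are Goethals-Seidel arrays. For `523`: four sign functions on `Z_523`,
constant on the orbits of the multiplier group of order nine, row sums `37, 19, 19, 1`. For `571`:
four sign functions on `Z_571`, the first invariant under the multipliers of order fifteen, the
other three invariant under the multipliers of order five and images of one another under a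
multiplier of order fifteen. For `573` and `659`: bordered Goethals-Seidel arrays, over
`Z_2^2 x Z_11 x Z_13` (`572 = 4 * 11 * 13`, one row and column of border per block) and over
`Z_2^2 x Z_2^2 x Z_41` (`656 = 16 * 41`, three rows and columns of border per block), the sign
functions constant on the orbits of a group of automorphisms of order fifteen.
-/

set_option autoImplicit false

open Matrix

namespace Pool.Agent.Results.MP_d8b1b3_co.OrdersAbove2000

theorem result : ∀ n ∈ ([2092, 2284, 2292, 2636] : List ℕ),
    ∃ H : Matrix (Fin n) (Fin n) ℤ,
      (∀ i j, H i j = 1 ∨ H i j = -1) ∧ H * Hᵀ = (n : ℤ) • (1 : Matrix (Fin n) (Fin n) ℤ) := by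
  intro n hn
  simp only [List.mem_cons, List.not_mem_nil, or_false] at hn
  rcases hn with rfl | rfl | rfl | rfl
  · exact Pool.Agent.N447.Had.N523.had
  · exact Pool.Agent.N447.Had.N571.had
  · exact Pool.Agent.N447.Had.N573.had
  · exact Pool.Agent.N447.Had.N659.had

end Pool.Agent.Results.MP_d8b1b3_co.OrdersAbove2000
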